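import Pool.Agent.NL.StmtsM

set_option autoImplicit false

open MeasureTheory Filter Topology Set

noncomputable section

namespace Pool.Agent.NL.H12

/-- sections: a coefficient vector on the image of `v` comes from one on the indices -/
theorem exists_beta {l : ℕ} (v : Fin l → ℝ) (G : ℝ → Z) (b : ℝ →₀ ℝ)
    (hb : b.support ⊆ Finset.univ.image v) (s : ℝ) (hs : s ∈ Finset.univ.image v) :
    ∃ (β : Fin l → ℝ) (j : Fin l), v j = s ∧ V G b = ∑ i, β i • G (v i) ∧
      ∀ x, V G b + b s • (G x - G s) = ∑ i, β i • G (Function.update v j x i) := by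
  classical
  have : Nonempty (Fin l) := by
    obtain ⟨j, -, -⟩ := Finset.mem_image.1 hs
    exact ⟨j⟩
  have hch : ∀ t ∈ Finset.univ.image v, ∃ i, v i = t := by
    intro t ht; simpa using ht
  choose! c hc using hch
  set β : Fin l → ℝ := fun i => if i = c (v i) then b (v i) else 0 with hβ
  have hsum : ∀ g : Fin l → Z, ∑ i, β i • g i = ∑ t ∈ Finset.univ.image v, b t • g (c t) := by
    intro g
    have h0 : ∑ i ∈ (Finset.univ.image v).image c, b (v i) • g i =
        ∑ t ∈ Finset.univ.image v, b (v (c t)) • g (c t) := by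
      refine Finset.sum_image ?_
      intro t ht t' ht' htt
      rw [← hc t ht, ← hc t' ht', htt]
    have h1 : ∑ t ∈ Finset.univ.image v, b t • g (c t) =
        ∑ i ∈ (Finset.univ.image v).image c, b (v i) • g i := by
      rw [h0]
      refine Finset.sum_congr rfl fun t ht => ?_
      rw [hc t ht]
    rw [h1]
    have h2 : ∑ i ∈ (Finset.univ.image v).image c, b (v i) • g i =
        ∑ i ∈ (Finset.univ.image v).image c, β i • g i := by
      refine Finset.sum_congr rfl fun i hi => ?_
      obtain ⟨t, ht, rfl⟩ := Finset.mem_image.1 hi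
      have : β (c t) = b (v (c t)) := by
        simp only [hβ]; rw [hc t ht]; simp
      rw [this]
    rw [h2]
    symm
    refine Finset.sum_subset (Finset.subset_univ _) fun i _ hi => ?_
    have : β i = 0 := by
      simp only [hβ]
      rw [if_neg]
      intro h
      exact hi (Finset.mem_image.2 ⟨v i, Finset.mem_image_of_mem _ (Finset.mem_univ _), h.symm⟩)
    rw [this, zero_smul]
  have hV : V G b = ∑ t ∈ Finset.univ.image v, b t • G t := by
    unfold V
    rw [Finsupp.linearCombination_apply, Finsupp.sum]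
    exact Finset.sum_subset hb fun t _ ht => by
      rw [Finsupp.notMem_support_iff.1 ht, zero_smul]
  refine ⟨β, c s, hc s hs, ?_, fun x => ?_⟩
  · rw [hV, hsum fun i => G (v i)]
    refine Finset.sum_congr rfl fun t ht => ?_
    rw [hc t ht]
  · rw [hV, hsum fun i => G (Function.update v (c s) x i)]
    rw [← Finset.add_sum_erase _ _ hs, ← Finset.add_sum_erase _ (fun t => b t •
      G (Function.update v (c s) x (c t))) hs, Function.update_self]
    have : ∑ t ∈ (Finset.univ.image v).erase s, b t • G (Function.update v (c s) x (c t)) =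
        ∑ t ∈ (Finset.univ.image v).erase s, b t • G t := by
      refine Finset.sum_congr rfl fun t ht => ?_
      obtain ⟨hts, ht⟩ := Finset.mem_erase.1 ht
      rw [Function.update_of_ne, hc t ht]
      intro h
      exact hts (by rw [← hc t ht, ← hc s hs, h])
    rw [this, smul_sub]
    abel

theorem phi_lip {X : Type} [NormedAddCommGroup X] [NormedSpace ℝ X] (G : ℝ → Z)
    (Ψ : X →ₗᵢ[ℝ] Z) (hG : ∀ w, ‖G w‖ ≤ 1) {l : ℕ} (β β' : Fin l → ℝ) (y y' : X)
    (u : Fin l → ℝ) : |‖∑ i, β i • G (u i) - Ψ y‖ - ‖∑ i, β' i • G (u i) - Ψ y'‖| ≤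
      ∑ i, |β i - β' i| + ‖y - y'‖ := by
  refine (abs_norm_sub_norm_le _ _).trans ?_
  have : ∑ i, β i • G (u i) - Ψ y - (∑ i, β' i • G (u i) - Ψ y') =
      ∑ i, (β i - β' i) • G (u i) - Ψ (y - y') := by
    have e1 : ∑ i, (β i - β' i) • G (u i) = ∑ i, β i • G (u i) - ∑ i, β' i • G (u i) := by
      rw [← Finset.sum_sub_distrib]
      refine Finset.sum_congr rfl fun i _ => ?_
      ext k
      rw [BoundedContinuousFunction.sub_apply, BoundedContinuousFunction.smul_apply,
        BoundedContinuousFunction.smul_apply, BoundedContinuousFunction.smul_apply, smul_eq_mul,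
        smul_eq_mul, smul_eq_mul, sub_mul]
    rw [e1, map_sub]
    abel
  rw [this]
  refine (norm_sub_le _ _).trans ?_
  rw [Ψ.norm_map]
  gcongr
  refine (norm_sum_le _ _).trans (Finset.sum_le_sum fun i _ => ?_)
  rw [norm_smul, Real.norm_eq_abs]
  exact mul_le_of_le_one_right (abs_nonneg _) (hG _)

theorem goo (hS : SliStmt) (hM : MeaStmt) : GooStmt := by
  intro X _ _ _ f F G Ψ hC l
  classical
  have h1 : ∀ᵐ v : Fin l → ℝ, ∀ (j : Fin l) (k : ℕ),
      Tendsto (fun x => G x k) (dens (v j)) (𝓝 (G (v j) k)) := by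
    rw [ae_all_iff]; intro j
    rw [ae_all_iff]; intro k
    have := hS l (fun v => G (v j) k) 1 ((hC.mea k).comp (measurable_pi_apply j))
      (fun v => ((G (v j)).norm_coe_le_norm k).trans (hC.bdd _)) j
    filter_upwards [this] with v hv
    simpa using hv
  have h2 : ∀ᵐ v : Fin l → ℝ, ∀ (j : Fin l) (β : Fin l → ℚ) (n : ℕ),
      Tendsto (fun x => ‖∑ i, (β i : ℝ) • G (Function.update v j x i) -
        Ψ (TopologicalSpace.denseSeq X n)‖) (dens (v j))
        (𝓝 ‖∑ i, (β i : ℝ) • G (v i) - Ψ (TopologicalSpace.denseSeq X n)‖) := by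
    rw [ae_all_iff]; intro j
    rw [ae_all_iff]; intro β
    rw [ae_all_iff]; intro n
    refine hS l (fun v => ‖∑ i, (β i : ℝ) • G (v i) - Ψ (TopologicalSpace.denseSeq X n)‖)
      (∑ i, |(β i : ℝ)| + ‖TopologicalSpace.denseSeq X n‖)
      ((hM G hC.mea).2 l (fun i => (β i : ℝ)) _) (fun v => ?_) j
    rw [abs_of_nonneg (norm_nonneg _)]
    have := phi_lip G Ψ hC.bdd (fun i => (β i : ℝ)) 0 (TopologicalSpace.denseSeq X n) 0 v
    simp only [Pi.zero_apply, zero_smul, Finset.sum_const_zero, map_zero, sub_zero, norm_zero,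
      abs_norm] at this
    exact this
  filter_upwards [h1, h2] with v hv1 hv2
  rw [Finset.empty_union]
  refine ⟨?_, ?_⟩
  · intro s hs k
    obtain ⟨j, -, rfl⟩ := Finset.mem_image.1 hs
    exact hv1 j k
  · intro s hs b hb y
    obtain ⟨β, j, rfl, hV, hx⟩ := exists_beta v G b hb s hs
    have hfun : (fun x => ‖V G b + b (v j) • (G x - G (v j)) - Ψ y‖) =
        fun x => ‖∑ i, β i • G (Function.update v j x i) - Ψ y‖ := by
      funext x; rw [hx]
    rw [hfun, hV, Metric.tendsto_nhds]
    intro ε hε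
    -- approximation
    have hβ : ∀ i, ∃ q : ℚ, |β i - (q : ℝ)| < ε / (6 * ((l : ℝ) + 1)) := by
      intro i
      obtain ⟨q, hq1, hq2⟩ := exists_rat_btwn (show β i - ε / (6 * ((l : ℝ) + 1)) < β i by
        have : 0 < ε / (6 * ((l : ℝ) + 1)) := by positivity
        linarith)
      refine ⟨q, ?_⟩
      rw [abs_of_pos (by linarith)]
      linarith
    choose q hq using hβ
    obtain ⟨n, hn⟩ := Metric.denseRange_iff.1 (TopologicalSpace.denseRange_denseSeq X) y
      (ε / 6) (by positivity)
    have hsum : ∑ i, |β i - (q i : ℝ)| + ‖y - TopologicalSpace.denseSeq X n‖ < ε / 3 := by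
      have a1 : ∑ i, |β i - (q i : ℝ)| ≤ ∑ _i : Fin l, ε / (6 * ((l : ℝ) + 1)) :=
        Finset.sum_le_sum fun i _ => (hq i).le
      have a2 : ∑ _i : Fin l, ε / (6 * ((l : ℝ) + 1)) ≤ ε / 6 := by
        rw [Finset.sum_const, Finset.card_univ, Fintype.card_fin, nsmul_eq_mul]
        rw [mul_div_assoc', div_le_div_iff₀ (by positivity) (by positivity)]
        nlinarith [hε, (Nat.cast_nonneg l : (0:ℝ) ≤ l)]
      have a3 : ‖y - TopologicalSpace.denseSeq X n‖ < ε / 6 := by
        rw [← dist_eq_norm]; exact hn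
      linarith
    have hev := Metric.tendsto_nhds.1 (hv2 j q n) (ε / 3) (by positivity)
    filter_upwards [hev] with x hx3
    have b1 := phi_lip G Ψ hC.bdd β (fun i => (q i : ℝ)) y (TopologicalSpace.denseSeq X n)
      (Function.update v j x)
    have b2 := phi_lip G Ψ hC.bdd β (fun i => (q i : ℝ)) y (TopologicalSpace.denseSeq X n) v
    rw [Real.dist_eq] at hx3 ⊢
    rw [abs_le] at b1 b2
    rw [abs_lt] at hx3 ⊢
    constructor <;> linarith [b1.1, b1.2, b2.1, b2.2, hx3.1, hx3.2]

end Pool.Agent.NL.H12
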