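import Pool.Agent.NL.StmtsM

set_option autoImplicit false

open MeasureTheory Filter Topology Set

noncomputable section

namespace Pool.Agent.NL.H12

theorem V_erase (G : ℝ → Z) (b : ℝ →₀ ℝ) (s : ℝ) :
    V G b = V G (b.erase s) + b s • G s := by
  unfold V
  conv_lhs => rw [← Finsupp.erase_add_single s b]
  rw [map_add, Finsupp.linearCombination_single]

theorem V_bound (G : ℝ → Z) (hG : ∀ w, ‖G w‖ ≤ 1) (z : Z) (c : ℝ) (x : ℝ) :
    ‖z + c • G x‖ ≤ ‖z‖ + |c| := by
  refine (norm_add_le _ _).trans ?_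
  rw [norm_smul, Real.norm_eq_abs]
  have := mul_le_mul_of_nonneg_left (hG x) (abs_nonneg c)
  linarith

theorem rem1 (hA : AvgStmt) (hM : MeaStmt) (X : Type) [NormedAddCommGroup X] [NormedSpace ℝ X]
    (f : ℝ → X) (F : ℕ → StrongDual ℝ X) (G : ℝ → Z) (Ψ : X →ₗᵢ[ℝ] Z) (hC : Crv f F G Ψ)
    (W : Finset ℝ) (hW : Good G Ψ W) (b : ℝ →₀ ℝ) (hb : b.support ⊆ W) (s : ℝ) :
    rho Ψ (V G (b.erase s)) ≤ rho Ψ (V G b) := by
  by_cases hs : b s = 0
  · rw [Finsupp.erase_of_notMem_support (by simpa using hs)]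
  have hsW : s ∈ W := hb (by simpa using hs)
  unfold rho
  refine (Metric.le_infDist (range_nonempty _)).2 ?_
  rintro _ ⟨y, rfl⟩
  -- the function of `x`
  set z₀ : Z := V G (b.erase s) - Ψ y with hz₀
  have hfun : ∀ x, V G b + b s • (G x - G s) - Ψ y = z₀ + b s • G x := by
    intro x
    rw [V_erase G b s, hz₀, smul_sub]; abel
  have hlim := hW.2 s hsW b hb y
  simp only [hfun] at hlim
  have hval : ‖V G b - Ψ y‖ = ‖z₀ + b s • G s‖ := by
    congr 1
    rw [V_erase G b s, hz₀]; abel
  rw [hval] at hlim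
  have hmeas : Measurable fun x => ‖z₀ + b s • G x‖ := (hM G hC.mea).1 z₀ (b s)
  have hbd : ∀ x, |‖z₀ + b s • G x‖| ≤ ‖z₀‖ + |b s| := by
    intro x; rw [abs_of_nonneg (norm_nonneg _)]; exact V_bound G hC.bdd z₀ (b s) x
  have havg := hA (fun x => ‖z₀ + b s • G x‖) (‖z₀‖ + |b s|) hmeas hbd s _ hlim
  rw [dist_eq_norm, hval]
  refine ge_of_tendsto' havg (fun n => ?_)
  set r : ℝ := 1 / ((n : ℝ) + 1) with hr
  have hn : (0 : ℝ) < (n : ℝ) + 1 := by positivity
  have hr0 : 0 < r := by positivity
  set xn : X := (((n : ℝ) + 1) / 2) • (f (s + r) - f (s - r)) with hxn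
  have h1 : Metric.infDist (V G (b.erase s)) (range Ψ) ≤
      ‖V G (b.erase s) - Ψ (y - b s • xn)‖ := by
    rw [← dist_eq_norm]; exact Metric.infDist_le_dist_of_mem ⟨_, rfl⟩
  refine h1.trans ?_
  have hI : IntegrableOn (fun x => ‖z₀ + b s • G x‖) (nb n s) := by
    refine Measure.integrableOn_of_bounded (M := ‖z₀‖ + |b s|) ?_ hmeas.aestronglyMeasurable ?_
    · simp [nb]
    · exact Eventually.of_forall fun x => by rw [Real.norm_eq_abs]; exact hbd x
  have hpos : 0 ≤ ((n : ℝ) + 1) / 2 * ∫ x in nb n s, ‖z₀ + b s • G x‖ := by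
    refine mul_nonneg (by positivity) (integral_nonneg fun x => norm_nonneg _)
  refine (BoundedContinuousFunction.norm_le hpos).2 fun k => ?_
  -- the coordinate
  have hGk : IntegrableOn (fun x => G x k) (nb n s) := by
    refine Measure.integrableOn_of_bounded (M := 1) ?_ (hC.mea k).aestronglyMeasurable ?_
    · simp [nb]
    · exact Eventually.of_forall fun x => ((G x).norm_coe_le_norm k).trans (hC.bdd x)
  have hint : ∫ x in nb n s, G x k = F k (f (s + r)) - F k (f (s - r)) := by
    rw [hC.avg (s - r) (s + r) (by linarith) k, intervalIntegral.integral_of_le (by linarith),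
      ← integral_Icc_eq_integral_Ioc]
    rfl
  have hvol : (volume (nb n s)).toReal = 2 * r := by
    rw [nb, Real.volume_Icc, ENNReal.toReal_ofReal] <;> rw [← hr]
    · ring
    · linarith
  have hcst : ∫ x in nb n s, (z₀ k + b s * G x k) = z₀ k * (2 * r) + b s * ∫ x in nb n s, G x k := by
    rw [integral_add (by
        refine Measure.integrableOn_of_bounded (M := ‖z₀ k‖) ?_ measurable_const.aestronglyMeasurable ?_
        · simp [nb]
        · exact Eventually.of_forall fun x => le_rfl) (hGk.const_mul _), integral_const_mul]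
    congr 1
    rw [setIntegral_const, smul_eq_mul, Measure.real, hvol]; ring
  have hk : (V G (b.erase s) - Ψ (y - b s • xn)) k =
      ((n : ℝ) + 1) / 2 * ∫ x in nb n s, (z₀ k + b s * G x k) := by
    rw [hcst, hint]
    have e1 : (Ψ (y - b s • xn)) k = Ψ y k - b s * (((n : ℝ) + 1) / 2 *
        (F k (f (s + r)) - F k (f (s - r)))) := by
      rw [hC.psi, hC.psi, map_sub, map_smul, hxn, map_smul, map_sub]
      simp only [smul_eq_mul]
    rw [BoundedContinuousFunction.sub_apply, e1, hz₀, BoundedContinuousFunction.sub_apply]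
    have h2 : ((n : ℝ) + 1) / 2 * (2 * r) = 1 := by rw [hr]; field_simp
    linear_combination ((-(V G (b.erase s) k - (Ψ y) k))) * h2
  rw [hk, Real.norm_eq_abs, abs_mul, abs_of_nonneg (by positivity : (0:ℝ) ≤ ((n : ℝ) + 1) / 2)]
  refine mul_le_mul_of_nonneg_left ?_ (by positivity)
  rw [← Real.norm_eq_abs]
  refine (norm_integral_le_integral_norm _).trans ?_
  refine integral_mono_of_nonneg (Eventually.of_forall fun x => norm_nonneg _) hI
    (Eventually.of_forall fun x => ?_)
  have := (z₀ + b s • G x).norm_coe_le_norm k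
  simpa using this

theorem rem (hA : AvgStmt) (hM : MeaStmt) : RemStmt := by
  intro X _ _ f F G Ψ hC W hW b hb p _
  have key : ∀ T : Finset ℝ, rho Ψ (V G (b.filter (fun x => x ∉ T))) ≤ rho Ψ (V G b) := by
    intro T
    induction T using Finset.induction_on with
    | empty =>
      have e0 : b.filter (fun x => x ∉ (∅ : Finset ℝ)) = b := by
        ext x; rw [Finsupp.filter_apply]; simp
      rw [e0]
    | insert s T hs ih =>
      have e : b.filter (fun x => x ∉ insert s T) = (b.filter (fun x => x ∉ T)).erase s := by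
        ext x
        by_cases hx : x = s
        · subst hx; simp
        · rw [Finsupp.erase_ne hx, Finsupp.filter_apply, Finsupp.filter_apply]
          simp [hx]
      rw [e]
      refine (rem1 hA hM X f F G Ψ hC W hW _ ?_ s).trans ih
      rw [Finsupp.support_filter]
      exact (Finset.filter_subset _ _).trans hb
  have e : b.filter p = b.filter (fun x => x ∉ b.support.filter (fun x => ¬ p x)) := by
    ext x
    rw [Finsupp.filter_apply, Finsupp.filter_apply]
    by_cases hx : p x
    · simp [hx]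
    · by_cases hb0 : b x = 0
      · simp [hx, hb0]
      · simp [hx, hb0]
  rw [e]
  exact key _

end Pool.Agent.NL.H12
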